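import Pool.Agent.W780.BB.Stm
import Pool.Agent.W174.PG.Basic
import Pool.Agent.W975.PG.Hull

set_option autoImplicit false

/-! Rational polygons: nontrivial invariant sets of directions. -/

namespace Pool.Agent.W230.BB.Conv

open Complex Set MeasureTheory Filter Topology Pool.Agent.W780.PG Pool.Agent.W780.BB

open scoped Real ComplexConjugate

variable {n : ℕ}

theorem rat_tau (hT : S_Tau) {p : Fin (n + 3) → ℂ} (hp : IsConvexPolygon p)
    (hr : ∀ i, ¬ Irrational (ang p i / π)) (i : Fin (n + 3)) :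
    ∃ t : ℚ, tau p i - tau p 0 = π * t := by
  induction i using Fin.induction with
  | zero => exact ⟨0, by simp⟩
  | succ i ih =>
    obtain ⟨t, ht⟩ := ih
    obtain ⟨k, hk⟩ := hT n p hp i.succ
    have h1 : i.succ - 1 = i.castSucc := by
      rw [← Fin.coeSucc_eq_succ, add_sub_cancel_right]
    rw [h1] at hk
    have h2 := hr i.succ
    unfold Irrational at h2
    rw [not_not] at h2
    obtain ⟨s, hs⟩ := h2
    have hpi := Real.pi_pos
    have h3 : ang p i.succ = π * s := by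
      rw [hs]
      field_simp
    refine ⟨t + (1 - s + 2 * k), ?_⟩
    push_cast
    rw [h3] at hk
    linear_combination ht + hk

theorem common (hT : S_Tau) {p : Fin (n + 3) → ℂ} (hp : IsConvexPolygon p)
    (hr : ∀ i, ¬ Irrational (ang p i / π)) :
    ∃ N : ℕ, 1 ≤ N ∧ ∀ i, ∃ k : ℤ, (N : ℝ) * (tau p i - tau p 0) = k * π := by
  choose t ht using rat_tau hT hp hr
  refine ⟨∏ i, (t i).den, Nat.one_le_iff_ne_zero.2 (Finset.prod_ne_zero_iff.2 fun i _ =>
    (t i).den_nz), fun i => ?_⟩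
  obtain ⟨m, hm⟩ : (t i).den ∣ ∏ i, (t i).den := Finset.dvd_prod_of_mem _ (Finset.mem_univ i)
  refine ⟨m * (t i).num, ?_⟩
  rw [ht i, hm]
  have h1 : ((t i).den : ℝ) * ((t i : ℚ) : ℝ) = (t i).num := by
    have := Rat.den_mul_eq_num (t i)
    exact_mod_cast this
  push_cast
  linear_combination ((m : ℝ) * π) * h1

/-- the invariant set -/
def SS (N : ℕ) (τ : ℝ) : Set (ℂ × ℝ) := {x | 0 < Real.cos (2 * N * (x.2 - τ))}

theorem SS_open (N : ℕ) (τ : ℝ) : IsOpen (SS N τ) := by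
  unfold SS
  exact isOpen_lt continuous_const (by fun_prop)

theorem cos_per (N : ℕ) (τ θ : ℝ) :
    Real.cos (2 * N * (θ + 2 * π - τ)) = Real.cos (2 * N * (θ - τ)) := by
  have h : 2 * (N : ℝ) * (θ + 2 * π - τ) = 2 * N * (θ - τ) + ((2 * N : ℕ) : ℝ) * (2 * π) := by
    push_cast
    ring
  rw [h, Real.cos_add_nat_mul_two_pi]

theorem cos_refl (N : ℕ) (τ τ' θ : ℝ) (k : ℤ) (h : (N : ℝ) * (τ' - τ) = k * π) :
    Real.cos (2 * N * (2 * τ' - θ - τ)) = Real.cos (2 * N * (θ - τ)) := by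
  have h1 : 2 * (N : ℝ) * (2 * τ' - θ - τ) = ((2 * k : ℤ) : ℝ) * (2 * π) - 2 * N * (θ - τ) := by
    push_cast
    linear_combination 4 * h
  rw [h1, Real.cos_int_mul_two_pi_sub]

theorem inv_SS {p : Fin (n + 3) → ℂ} (N : ℕ)
    (hN : ∀ i, ∃ k : ℤ, (N : ℝ) * (tau p i - tau p 0) = k * π) :
    IsInvariant p (SS N (tau p 0)) where
  periodic z θ := by
    unfold SS
    simp only [Set.mem_ofPred_eq]
    rw [cos_per]
  free z θ s _ _ := Iff.rfl
  reflect i y _ θ s r _ _ _ _ := by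
    obtain ⟨k, hk⟩ := hN i
    unfold SS
    simp only [Set.mem_ofPred_eq]
    rw [cos_refl N _ _ θ k hk]

/-- a zero between two angles of different type -/
theorem zero_between (N : ℕ) (τ θ h : ℝ) (hh : 0 < h)
    (hd : ¬ (0 < Real.cos (2 * N * (θ - τ)) ↔ 0 < Real.cos (2 * N * (θ + h - τ)))) :
    ∃ ζ ∈ Icc θ (θ + h), Real.cos (2 * N * (ζ - τ)) = 0 := by
  have hc : ContinuousOn (fun ζ : ℝ => Real.cos (2 * N * (ζ - τ))) (Icc θ (θ + h)) := by
    apply Continuous.continuousOn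
    fun_prop
  have hle : θ ≤ θ + h := by linarith
  by_cases h1 : 0 < Real.cos (2 * N * (θ - τ))
  · have h2 : Real.cos (2 * N * (θ + h - τ)) ≤ 0 := by
      by_contra h3
      push Not at h3
      exact hd ⟨fun _ => h3, fun _ => h1⟩
    have h3 := intermediate_value_Icc' hle hc
    obtain ⟨ζ, hζ, h4⟩ := h3 ⟨h2, h1.le⟩
    exact ⟨ζ, hζ, h4⟩
  · have h2 : 0 < Real.cos (2 * N * (θ + h - τ)) := by
      by_contra h3
      exact hd ⟨fun h4 => absurd h4 h1, fun h4 => absurd h4 h3⟩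
    push Not at h1
    have h3 := intermediate_value_Icc hle hc
    obtain ⟨ζ, hζ, h4⟩ := h3 ⟨h1, h2.le⟩
    exact ⟨ζ, hζ, h4⟩

theorem perim {p : Fin (n + 3) → ℂ} (N : ℕ) (hN1 : 1 ≤ N) (hfin : volume (region p) ≠ ⊤) :
    FinitePerimeter p (SS N (tau p 0)) := by
  set τ := tau p 0 with hτ
  have hτ' : |τ| ≤ π := by
    rw [hτ]
    exact Complex.abs_arg_le_pi _
  have hpi := Real.pi_pos
  have hN0 : (0 : ℝ) < N := by exact_mod_cast hN1
  obtain ⟨M, hM⟩ := exists_nat_gt ((2 * (N : ℝ) * (3 * π + 1) + π / 2) / π)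
  rw [div_lt_iff₀ hpi] at hM
  set z : ℤ → ℝ := fun m => τ + (π / 2 + m * π) / (2 * N) with hz
  refine ⟨(volume (region p)).toReal * (2 * M + 1), fun h h0 h1 => ?_⟩
  have hsub : {x : ℂ × ℝ | x ∈ phase p ∧ ¬ (x ∈ SS N τ ↔ (x.1, x.2 + h) ∈ SS N τ)} ⊆
      region p ×ˢ (⋃ m ∈ Finset.Icc (-(M : ℤ)) M, Icc (z m - h) (z m)) := by
    rintro ⟨w, θ⟩ ⟨⟨hw, hθ⟩, hx⟩
    refine ⟨hw, ?_⟩
    simp only at hθ
    obtain ⟨ζ, hζ, hc⟩ := zero_between N τ θ h h0 hx
    obtain ⟨m, hm⟩ := Real.cos_eq_zero_iff.1 hc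
    have hζm : ζ = z m := by
      simp only [hz]
      field_simp
      field_simp at hm
      linarith
    have hζ0 : 0 ≤ ζ := hθ.1.trans hζ.1
    have hζ1 : ζ ≤ 2 * π + 1 := by linarith [hζ.2, hθ.2]
    have hab := abs_le.1 hτ'
    have hb1 : |2 * (N : ℝ) * (ζ - τ)| ≤ 2 * N * (3 * π + 1) := by
      rw [abs_mul, abs_of_pos (by positivity)]
      apply mul_le_mul_of_nonneg_left _ (by positivity)
      rw [abs_le]
      constructor <;> linarith
    have hb2 := abs_le.1 hb1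
    rw [hm] at hb2
    have hmM : m ∈ Finset.Icc (-(M : ℤ)) M := by
      rw [Finset.mem_Icc]
      constructor
      · by_contra hcon
        push Not at hcon
        have h3 : (m : ℝ) < -(M : ℝ) := by exact_mod_cast hcon
        nlinarith
      · by_contra hcon
        push Not at hcon
        have h3 : (M : ℝ) < (m : ℝ) := by exact_mod_cast hcon
        nlinarith
    simp only [mem_iUnion]
    refine ⟨m, hmM, ?_, ?_⟩
    · rw [← hζm]
      linarith [hζ.2]
    · rw [← hζm]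
      exact hζ.1
  refine (measure_mono hsub).trans ?_
  rw [Measure.volume_eq_prod, Measure.prod_prod]
  have h2 : volume (⋃ m ∈ Finset.Icc (-(M : ℤ)) M, Icc (z m - h) (z m)) ≤
      ENNReal.ofReal ((2 * M + 1) * h) := by
    refine (measure_biUnion_finset_le _ _).trans ?_
    have h3 : ∀ m : ℤ, volume (Icc (z m - h) (z m)) = ENNReal.ofReal h := by
      intro m
      rw [Real.volume_Icc]
      congr 1
      ring
    simp only [h3]
    rw [Finset.sum_const, Int.card_Icc, nsmul_eq_mul, ENNReal.ofReal_mul (by positivity)]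
    have h4 : ((M : ℤ) + 1 - -(M : ℤ)).toNat = 2 * M + 1 := by omega
    rw [h4]
    apply mul_le_mul_left
    rw [show (2 * (M : ℝ) + 1) = ((2 * M + 1 : ℕ) : ℝ) by push_cast; ring,
      ENNReal.ofReal_natCast]
  refine (mul_le_mul_right h2 _).trans ?_
  rw [mul_assoc, ENNReal.ofReal_mul ENNReal.toReal_nonneg, ENNReal.ofReal_toReal hfin]

/-- directions of any phase -/
theorem exists_dir (N : ℕ) (hN1 : 1 ≤ N) (τ a : ℝ) :
    ∃ θ ∈ Ioo (0 : ℝ) (2 * π), Real.cos (2 * N * (θ - τ)) = Real.cos a := by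
  have hpi := Real.pi_pos
  have hN0 : (1 : ℝ) ≤ N := by exact_mod_cast hN1
  set c : ℝ := (-(2 * N * τ) - a) / (2 * π) with hc
  have hc' : c * (2 * π) = -(2 * N * τ) - a := by rw [hc]; field_simp
  set k : ℤ := ⌊c⌋ + 1 with hk
  have hk1 : c < k := by
    rw [hk]
    push_cast
    exact Int.lt_floor_add_one c
  have hk2 : (k : ℝ) ≤ c + 1 := by
    rw [hk]
    push_cast
    linarith [Int.floor_le c]
  refine ⟨τ + (a + k * (2 * π)) / (2 * N), ⟨?_, ?_⟩, ?_⟩
  · have h1 : τ + (a + k * (2 * π)) / (2 * N) = ((k - c) * (2 * π)) / (2 * N) := by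
      have : (2 * (N : ℝ)) ≠ 0 := by positivity
      rw [sub_mul, hc']
      field_simp
      ring
    rw [h1]
    have : 0 < (k : ℝ) - c := by linarith
    positivity
  · have h1 : τ + (a + k * (2 * π)) / (2 * N) = ((k - c) * (2 * π)) / (2 * N) := by
      have : (2 * (N : ℝ)) ≠ 0 := by positivity
      rw [sub_mul, hc']
      field_simp
      ring
    rw [h1, div_lt_iff₀ (by positivity)]
    have h2 : ((k : ℝ) - c) * (2 * π) ≤ 1 * (2 * π) :=
      mul_le_mul_of_nonneg_right (by linarith) (by positivity)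
    nlinarith
  · have h1 : 2 * (N : ℝ) * (τ + (a + k * (2 * π)) / (2 * N) - τ) = a + k * (2 * π) := by
      have : (2 * (N : ℝ)) ≠ 0 := by positivity
      field_simp
      ring
    rw [h1, Real.cos_add_int_mul_two_pi]

theorem pos_meas {p : Fin (n + 3) → ℂ} (hne : (region p).Nonempty) {W : Set ℝ} (hW : IsOpen W)
    {θ : ℝ} (hθ : θ ∈ Ioo (0 : ℝ) (2 * π)) (hθW : θ ∈ W) {X : Set (ℂ × ℝ)}
    (hX : ∀ w t, w ∈ region p → t ∈ Ico (0 : ℝ) (2 * π) → t ∈ W → (w, t) ∈ X) :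
    volume X ≠ 0 := by
  intro h0
  obtain ⟨w, hw⟩ := hne
  have ho : IsOpen (region p ×ˢ (Ioo (0 : ℝ) (2 * π) ∩ W)) :=
    isOpen_interior.prod (isOpen_Ioo.inter hW)
  have h1 : 0 < volume (region p ×ˢ (Ioo (0 : ℝ) (2 * π) ∩ W)) :=
    ho.measure_pos volume ⟨(w, θ), hw, hθ, hθW⟩
  have h2 : region p ×ˢ (Ioo (0 : ℝ) (2 * π) ∩ W) ⊆ X := by
    rintro ⟨w, t⟩ ⟨hw, ht, htW⟩
    exact hX w t hw ⟨ht.1.le, ht.2⟩ htW
  have h3 := measure_mono (μ := volume) h2
  rw [h0] at h3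
  exact absurd h3 (not_le.2 h1)

theorem conv : S_Conv := by
  intro hT n p hp hr
  obtain ⟨N, hN1, hN⟩ := common hT hp hr
  have hB := Pool.Agent.W174.PG.basic
  have hreg : region p = reg p := (Pool.Agent.W975.PG.hull hB n p hp).2
  obtain ⟨-, -, -, -, -, hne, -⟩ := hB n p hp
  rw [← hreg] at hne
  have hcomp : IsCompact (convexHull ℝ (range p)) := (Set.finite_range p).isCompact_convexHull (𝕜 := ℝ)
  have hfin : volume (region p) ≠ ⊤ :=
    ((measure_mono interior_subset).trans_lt hcomp.measure_lt_top).ne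
  refine ⟨SS N (tau p 0), (SS_open _ _).measurableSet, inv_SS N hN, perim N hN1 hfin, ?_⟩
  have hW1 : IsOpen {t : ℝ | 0 < Real.cos (2 * N * (t - tau p 0))} :=
    isOpen_lt continuous_const (by fun_prop)
  have hW2 : IsOpen {t : ℝ | Real.cos (2 * N * (t - tau p 0)) < 0} :=
    isOpen_lt (by fun_prop) continuous_const
  rintro (h | h)
  · obtain ⟨θ, hθ, hc⟩ := exists_dir N hN1 (tau p 0) 0
    rw [Real.cos_zero] at hc
    refine pos_meas hne hW1 hθ ?_ ?_ h
    · simp only [Set.mem_ofPred_eq]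
      rw [hc]
      exact one_pos
    · intro w t hw ht htW
      exact ⟨⟨hw, ht⟩, htW⟩
  · obtain ⟨θ, hθ, hc⟩ := exists_dir N hN1 (tau p 0) π
    rw [Real.cos_pi] at hc
    refine pos_meas hne hW2 hθ ?_ ?_ h
    · simp only [Set.mem_ofPred_eq]
      rw [hc]
      norm_num
    · intro w t hw ht htW
      refine ⟨⟨hw, ht⟩, ?_⟩
      intro hS
      exact absurd (show 0 < Real.cos (2 * N * (t - tau p 0)) from hS) (not_lt.2
        (show Real.cos (2 * N * (t - tau p 0)) ≤ 0 from le_of_lt htW))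

end Pool.Agent.W230.BB.Conv
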